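import Pool.Agent.W5h27.MO.Bound

/-! # The polyconvex supports, in complex coordinates -/

set_option autoImplicit false

open Set Filter Topology
open scoped ComplexConjugate

namespace Pool.Agent.W5h27.MO

variable {V : ℂ → ℂ → ℝ} {S : ℂ → Set ℂ}

theorem sup2 (hS : ∀ κ, IsOpen (S κ)) (hS0 : ∀ κ, (0 : ℂ) ∈ S κ)
    (hconv : ∀ κ : ℂ, ‖κ‖ = 1 → ConvexOn ℝ (S κ) (fun β => V (1 - κ * β) β))
    (hhom : ∀ c κ β : ℂ, c ≠ 0 → ‖κ‖ = 1 → β ∈ S κ →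
      V (c * (1 - κ * β)) (c * β) = ‖c‖ ^ 2 * V (1 - κ * β) β) :
    ∃ (α : ℝ) (v κ : ℂ), ‖κ‖ = 1 ∧ V 1 0 = α + ‖v‖ ^ 2 ∧
      ∀ a b : ℂ, a + κ * b ≠ 0 → b / (a + κ * b) ∈ S κ →
        α * (‖a‖ ^ 2 - ‖b‖ ^ 2) + ‖a * conj v + b * v‖ ^ 2 ≤ V a b := by
  obtain ⟨g, hg⟩ := bound2 hS hS0 hconv hhom
  obtain ⟨κ, hκ, hgκ⟩ := exists_phase g
  obtain ⟨v, hv⟩ := exists_sqrt (g / 2)
  have h1 : ‖v‖ ^ 2 = ‖g‖ / 2 := by
    have := congrArg norm hv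
    rw [norm_pow, norm_div] at this
    simpa using this
  refine ⟨V 1 0 - ‖g‖ / 2, v, κ, hκ, by rw [h1]; ring, fun a b hc hb => ?_⟩
  have h2 := hg κ a b hκ hc hb
  have h3 : (g * b * conj (a + κ * b)).re = (g * b * conj a).re + ‖g‖ * ‖b‖ ^ 2 := by
    have e : g * b * conj (a + κ * b) = g * b * conj a + ((‖g‖ * ‖b‖ ^ 2 : ℝ) : ℂ) := by
      have e2 : ((‖b‖ ^ 2 : ℝ) : ℂ) = b * conj b := by
        rw [Complex.mul_conj, Complex.normSq_eq_norm_sq]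
      rw [Complex.ofReal_mul, e2, ← hgκ, map_add, map_mul]
      ring
    rw [e, Complex.add_re, Complex.ofReal_re]
  rw [h3] at h2
  rw [quad_id g v a b hv]
  refine le_trans (le_of_eq ?_) h2
  ring

theorem mem_Hp {a b κ : ℂ} (hκ : ‖κ‖ = 1) (h : ‖b‖ < ‖a‖) (hc : a + κ * b ≠ 0) :
    b / (a + κ * b) ∈ Hp κ := by
  have h1 := det_id a b κ hκ
  have h2 : 0 < ‖a‖ ^ 2 - ‖b‖ ^ 2 := by
    have := norm_nonneg b
    nlinarith
  have h3 := norm_sq_mul_div κ b _ hc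
  have h4 : 0 < ‖a + κ * b‖ ^ 2 := by
    have := norm_pos_iff.2 hc
    positivity
  rw [← h3] at h1
  show (κ * (b / (a + κ * b))).re < 1 / 2
  by_contra hcon
  push Not at hcon
  have := mul_le_mul_of_nonneg_left hcon h4.le
  linarith

theorem ne_of_lt {a b κ : ℂ} (hκ : ‖κ‖ = 1) (h : ‖b‖ < ‖a‖) : a + κ * b ≠ 0 := by
  intro h0
  have h1 : a = -(κ * b) := eq_neg_of_add_eq_zero_left h0
  rw [h1, norm_neg, norm_mul, hκ, one_mul] at h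
  exact lt_irrefl _ h

theorem exists_dir {a b g : ℂ} (h : ‖b‖ < ‖a‖) : ∃ κ : ℂ, ‖κ‖ = 1 ∧
    (g * (b / (a + κ * b))).re
      = ((g * b * conj a).re + ‖g‖ * ‖b‖ ^ 2) / (‖a‖ ^ 2 - ‖b‖ ^ 2) := by
  by_cases hb : b = 0
  · exact ⟨1, norm_one, by simp [hb]⟩
  obtain ⟨η, hη, hgη⟩ := exists_phase g
  set ω := conj η with hω
  have hω1 : ‖ω‖ = 1 := by rw [hω, Complex.norm_conj, hη]
  have hd : conj a + conj b * ω ≠ 0 := by
    have := ne_of_lt (a := conj a) (b := conj b) hω1 (by simpa using h)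
    rwa [mul_comm] at this
  have hη' : ω * η = 1 := by
    rw [hω, mul_comm, Complex.mul_conj, Complex.normSq_eq_norm_sq, hη]; simp
  have hn : ‖b + a * ω‖ = ‖conj a + conj b * ω‖ := by
    have e1 : b + a * ω = ω * conj (conj a + conj b * ω) := by
      rw [map_add, map_mul, Complex.conj_conj, Complex.conj_conj, hω, Complex.conj_conj, ← hω]
      rw [mul_add, mul_left_comm, hη']
      ring
    rw [e1, norm_mul, hω1, one_mul, Complex.norm_conj]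
  have hbc : conj b ≠ 0 := (map_ne_zero _).2 hb
  set κ := -(conj b / b) * ((b + a * ω) / (conj a + conj b * ω)) with hκdef
  have hκ : ‖κ‖ = 1 := by
    rw [hκdef, norm_mul, norm_neg, norm_div, norm_div, Complex.norm_conj, hn,
      div_self (norm_ne_zero_iff.2 hb), div_self (norm_ne_zero_iff.2 hd), one_mul]
  have hD : ((‖a‖ ^ 2 - ‖b‖ ^ 2 : ℝ) : ℂ) = a * conj a - b * conj b := by
    rw [Complex.mul_conj, Complex.mul_conj, Complex.normSq_eq_norm_sq, Complex.normSq_eq_norm_sq]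
    push_cast
    ring
  have hc : a + κ * b = ((‖a‖ ^ 2 - ‖b‖ ^ 2 : ℝ) : ℂ) / (conj a + conj b * ω) := by
    rw [hD, hκdef]
    field_simp
    ring
  refine ⟨κ, hκ, ?_⟩
  have e1 : g * (b / (a + κ * b)) = (g * b * conj a + ((‖g‖ * ‖b‖ ^ 2 : ℝ) : ℂ))
      / ((‖a‖ ^ 2 - ‖b‖ ^ 2 : ℝ) : ℂ) := by
    rw [hc, div_div_eq_mul_div, mul_div_assoc']
    congr 1
    have e2 : ((‖b‖ ^ 2 : ℝ) : ℂ) = b * conj b := by
      rw [Complex.mul_conj, Complex.normSq_eq_norm_sq]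
    rw [Complex.ofReal_mul, e2, ← hgη]
    ring
  rw [e1, Complex.div_ofReal_re, Complex.add_re, Complex.ofReal_re]

theorem sup0 
    (hconv : ∀ κ : ℂ, ‖κ‖ = 1 → ConvexOn ℝ (Hp κ) (fun β => V (1 - κ * β) β))
    (hhom : ∀ c κ β : ℂ, c ≠ 0 → ‖κ‖ = 1 → β ∈ Hp κ →
      V (c * (1 - κ * β)) (c * β) = V (1 - κ * β) β) :
    ∃ (α : ℝ) (v : ℂ), V 1 0 = α + ‖v‖ ^ 2 ∧
      ∀ a b : ℂ, ‖b‖ < ‖a‖ →
        α + ‖a * conj v + b * v‖ ^ 2 / (‖a‖ ^ 2 - ‖b‖ ^ 2) ≤ V a b := by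
  obtain ⟨g, hg⟩ := bound0 Hp_open Hp_zero hconv hhom
  obtain ⟨v, hv⟩ := exists_sqrt (g / 2)
  have h1 : ‖v‖ ^ 2 = ‖g‖ / 2 := by
    have := congrArg norm hv
    rw [norm_pow, norm_div] at this
    simpa using this
  refine ⟨V 1 0 - ‖g‖ / 2, v, by rw [h1]; ring, fun a b hab => ?_⟩
  obtain ⟨κ, hκ, hdir⟩ := exists_dir (g := g) hab
  have hc := ne_of_lt hκ hab
  have h2 := hg κ a b hκ hc (mem_Hp hκ hab hc)
  rw [hdir] at h2
  refine le_trans (le_of_eq ?_) h2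
  rw [quad_id g v a b hv]
  have hD : ‖a‖ ^ 2 - ‖b‖ ^ 2 ≠ 0 := by
    have := norm_nonneg b
    have : 0 < ‖a‖ ^ 2 - ‖b‖ ^ 2 := by nlinarith
    exact this.ne'
  field_simp
  ring

end Pool.Agent.W5h27.MO
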