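import Pool.Agent.W5h27.MO.Mat

/-! # Null Lagrangian supports and polyconvexity -/

set_option autoImplicit false

open Set Filter Topology Matrix
open scoped ComplexConjugate

namespace Pool.Agent.W5h27.MO

/-- a null Lagrangian which supports `W` at `F₀` on the set of matrices with determinant in `I` -/
def NlAt (W : M2 → ℝ) (I : Set ℝ) (F₀ : M2) : Prop :=
  ∃ (A γ : ℝ) (l : M2 →ₗ[ℝ] ℝ), W F₀ = A + l F₀ + γ * F₀.det ∧
    ∀ F : M2, F.det ∈ I → A + l F + γ * F.det ≤ W F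

/-- the linear function `F ↦ 2 F₀u · Fu` -/
def lf (F₀ : M2) (u : Fin 2 → ℝ) : M2 →ₗ[ℝ] ℝ where
  toFun F := 2 * ((F₀ *ᵥ u) ⬝ᵥ (F *ᵥ u))
  map_add' F G := by rw [Matrix.add_mulVec, dotProduct_add]; ring
  map_smul' t F := by rw [Matrix.smul_mulVec, dotProduct_smul]; simp; ring

theorem lf_apply (F₀ : M2) (u : Fin 2 → ℝ) (F : M2) :
    lf F₀ u F = 2 * ((F₀ *ᵥ u) ⬝ᵥ (F *ᵥ u)) := rfl

theorem lf_self (F₀ : M2) (u : Fin 2 → ℝ) : lf F₀ u F₀ = 2 * qf F₀ u := rfl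

theorem qf_ge (F₀ F : M2) (u : Fin 2 → ℝ) : lf F₀ u F - qf F₀ u ≤ qf F u := by
  rw [lf_apply]
  unfold qf
  simp only [dotProduct, Fin.sum_univ_two]
  nlinarith [sq_nonneg ((F *ᵥ u) 0 - (F₀ *ᵥ u) 0), sq_nonneg ((F *ᵥ u) 1 - (F₀ *ᵥ u) 1)]

theorem nl_of_quad {W : M2 → ℝ} {I : Set ℝ} {F₀ : M2} {α : ℝ} {u : Fin 2 → ℝ}
    (h0 : W F₀ = α * F₀.det + qf F₀ u)
    (h : ∀ F : M2, F.det ∈ I → α * F.det + qf F u ≤ W F) : NlAt W I F₀ := by
  refine ⟨-qf F₀ u, α, lf F₀ u, by rw [lf_self, h0]; ring, fun F hF => ?_⟩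
  have h1 := qf_ge F₀ F u
  have h2 := h F hF
  linarith

theorem nl_of_quot {W : M2 → ℝ} {F₀ : M2} (hF₀ : 0 < F₀.det) {α : ℝ} {u : Fin 2 → ℝ}
    (h0 : W F₀ = α + qf F₀ u / F₀.det)
    (h : ∀ F : M2, 0 < F.det → α + qf F u / F.det ≤ W F) : NlAt W (Ioi 0) F₀ := by
  refine ⟨α, -(qf F₀ u / F₀.det ^ 2), F₀.det⁻¹ • lf F₀ u, ?_, fun F hF => ?_⟩
  · rw [LinearMap.smul_apply, lf_self, h0, smul_eq_mul]
    field_simp
    ring
  · have hF' : 0 < F.det := hF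
    refine le_trans ?_ (h F hF')
    rw [LinearMap.smul_apply, smul_eq_mul, lf_apply]
    unfold qf
    simp only [dotProduct, Fin.sum_univ_two]
    set x := (F *ᵥ u) 0
    set y := (F *ᵥ u) 1
    set x₀ := (F₀ *ᵥ u) 0
    set y₀ := (F₀ *ᵥ u) 1
    set d := F.det
    set d₀ := F₀.det
    have e : α + (x * x + y * y) / d
        - (α + d₀⁻¹ * (2 * (x₀ * x + y₀ * y)) + -((x₀ * x₀ + y₀ * y₀) / d₀ ^ 2) * d)
        = d * ((x / d - x₀ / d₀) ^ 2 + (y / d - y₀ / d₀) ^ 2) := by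
      field_simp
      ring
    have : 0 ≤ d * ((x / d - x₀ / d₀) ^ 2 + (y / d - y₀ / d₀) ^ 2) := by positivity
    linarith

/-! ### polyconvexity -/

theorem exists_perp (a : ℂ) {y : ℝ} (hy : 0 ≤ y) :
    ∃ p : ℂ, ‖a + p‖ ^ 2 = ‖a‖ ^ 2 + y ∧ ‖a + -p‖ ^ 2 = ‖a‖ ^ 2 + y := by
  obtain ⟨κ, hκ, h⟩ := exists_phase a
  have hκ2 : κ * conj κ = 1 := by
    rw [Complex.mul_conj, Complex.normSq_eq_norm_sq, hκ]; simp
  have ha : a = ‖a‖ * κ := by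
    rw [← h, mul_assoc, mul_comm (conj κ), hκ2, mul_one]
  have e : ∀ s : ℝ, s ^ 2 = y → ‖a + (s * Complex.I * κ)‖ ^ 2 = ‖a‖ ^ 2 + y := by
    intro s hs
    have e1 : a + (s * Complex.I * κ) = (‖a‖ + s * Complex.I) * κ := by
      conv_lhs => rw [ha]
      ring
    rw [e1, norm_mul, hκ, mul_one, sq_norm_re]
    simp [hs]
  refine ⟨(Real.sqrt y : ℝ) * Complex.I * κ, e _ (Real.sq_sqrt hy), ?_⟩
  have := e (-Real.sqrt y) (by rw [neg_sq, Real.sq_sqrt hy])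
  rw [← this]
  congr 3
  push_cast
  ring

theorem exists_H (F : M2) (x : ℝ) : ∃ H : M2, (F + H).det = x ∧ (F + -H).det = x := by
  obtain ⟨a, b, rfl⟩ := exists_mt F
  have hneg : ∀ p q : ℂ, -mt p q = mt (-p) (-q) := by
    intro p q
    have := mt_smul (-1) p q
    simpa using this
  rcases le_total 0 (x - (mt a b).det) with h | h
  · obtain ⟨p, h1, h2⟩ := exists_perp a h
    refine ⟨mt p 0, ?_, ?_⟩
    · rw [mt_add, mt_det, h1, mt_det]; simp; ring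
    · rw [hneg, mt_add, mt_det, h2, mt_det]; simp; ring
  · obtain ⟨q, h1, h2⟩ := exists_perp b (y := -(x - (mt a b).det)) (by linarith)
    refine ⟨mt 0 q, ?_, ?_⟩
    · rw [mt_add, mt_det, h1, mt_det]; simp; ring
    · rw [hneg, mt_add, mt_det, h2, mt_det]; simp; ring

/-- the values of the supporting affine functions -/
def Vals (W : M2 → ℝ) (I : Set ℝ) (p : M2 × ℝ) : Set ℝ :=
  {r | ∃ (A γ : ℝ) (l : M2 →ₗ[ℝ] ℝ),
    (∀ F : M2, F.det ∈ I → A + l F + γ * F.det ≤ W F) ∧ r = A + l p.1 + γ * p.2}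

theorem vals_bdd (W : M2 → ℝ) {I : Set ℝ} {p : M2 × ℝ} (hp : p.2 ∈ I) :
    BddAbove (Vals W I p) := by
  obtain ⟨H, h1, h2⟩ := exists_H p.1 p.2
  refine ⟨(W (p.1 + H) + W (p.1 + -H)) / 2, ?_⟩
  rintro r ⟨A, γ, l, h, rfl⟩
  have g1 := h (p.1 + H) (by rw [h1]; exact hp)
  have g2 := h (p.1 + -H) (by rw [h2]; exact hp)
  rw [h1, map_add] at g1
  rw [h2, map_add, map_neg] at g2
  linarith

theorem pcx_of_nl {W : M2 → ℝ} {I : Set ℝ} (hI : Convex ℝ I) (hI0 : I.Nonempty)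
    (h : ∀ F₀ : M2, F₀.det ∈ I → NlAt W I F₀) :
    ∃ P : M2 × ℝ → ℝ, ConvexOn ℝ {p : M2 × ℝ | p.2 ∈ I} P ∧
      ∀ F : M2, F.det ∈ I → W F = P (F, F.det) := by
  have hne : ∀ p : M2 × ℝ, (Vals W I p).Nonempty := by
    intro p
    obtain ⟨x, hx⟩ := hI0
    obtain ⟨H, h1, -⟩ := exists_H 0 x
    obtain ⟨A, γ, l, -, h3⟩ := h (0 + H) (by rw [h1]; exact hx)
    exact ⟨_, A, γ, l, h3, rfl⟩
  refine ⟨fun p => sSup (Vals W I p), ⟨?_, ?_⟩, ?_⟩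
  · intro p hp q hq s t hs ht hst
    exact hI hp hq hs ht hst
  · intro p hp q hq s t hs ht hst
    refine csSup_le (hne _) ?_
    rintro r ⟨A, γ, l, h1, rfl⟩
    have g1 : A + l p.1 + γ * p.2 ≤ sSup (Vals W I p) := le_csSup (vals_bdd W hp) ⟨A, γ, l, h1, rfl⟩
    have g2 : A + l q.1 + γ * q.2 ≤ sSup (Vals W I q) := le_csSup (vals_bdd W hq) ⟨A, γ, l, h1, rfl⟩
    have g3 := mul_le_mul_of_nonneg_left g1 hs
    have g4 := mul_le_mul_of_nonneg_left g2 ht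
    simp only [Prod.fst_add, Prod.smul_fst, Prod.snd_add, Prod.smul_snd, map_add, map_smul,
      smul_eq_mul]
    have e : A + (s * l p.1 + t * l q.1) + γ * (s * p.2 + t * q.2)
        = s * (A + l p.1 + γ * p.2) + t * (A + l q.1 + γ * q.2) := by
      have : s = 1 - t := by linarith
      subst this
      ring
    rw [e]
    linarith
  · intro F hF
    refine le_antisymm ?_ ?_
    · obtain ⟨A, γ, l, h1, h2⟩ := h F hF
      rw [h1]
      exact le_csSup (vals_bdd W (p := (F, F.det)) hF) ⟨A, γ, l, h2, rfl⟩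
    · refine csSup_le (hne _) ?_
      rintro r ⟨A, γ, l, h1, rfl⟩
      exact h1 F hF

end Pool.Agent.W5h27.MO
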