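import Mathlib

/-! # Supports of convex functions on plane domains and their transfer -/

set_option autoImplicit false

open Set Filter Topology
open scoped ComplexConjugate

namespace Pool.Agent.W5h27.MO

/-- a real linear functional of a complex variable -/
theorem lin_re (φ : ℂ →L[ℝ] ℝ) : ∃ g : ℂ, ∀ z, φ z = (g * z).re := by
  refine ⟨⟨φ 1, -φ Complex.I⟩, fun z => ?_⟩
  have e : z = z.re • (1 : ℂ) + z.im • Complex.I := by
    apply Complex.ext <;> simp
  conv_lhs => rw [e]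
  rw [map_add, map_smul, map_smul, Complex.mul_re]
  simp only [smul_eq_mul]
  ring

/-- existence of a subgradient at `0` -/
theorem subgrad {s : Set ℂ} (hs : IsOpen s) (h0 : (0 : ℂ) ∈ s) {f : ℂ → ℝ}
    (hf : ConvexOn ℝ s f) : ∃ g : ℂ, ∀ z ∈ s, f 0 + (g * z).re ≤ f z := by
  have hc : ContinuousOn f s := hf.continuousOn hs
  set E : Set (ℂ × ℝ) := {p | p.1 ∈ s ∧ f p.1 < p.2} with hE
  have hEc : Convex ℝ E := hf.convex_strict_epigraph
  have hEo : IsOpen E := by
    have h1 : ContinuousOn (fun p : ℂ × ℝ => p.2 - f p.1) (s ×ˢ univ) := by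
      refine continuousOn_snd.sub (hc.comp continuousOn_fst fun p hp => hp.1)
    have h2 := h1.isOpen_inter_preimage (hs.prod isOpen_univ) (isOpen_Ioi (a := (0:ℝ)))
    convert h2 using 1
    ext p
    simp [hE]
  have hn : ((0 : ℂ), f 0) ∉ E := fun h => lt_irrefl _ h.2
  obtain ⟨φ, hφ⟩ := geometric_hahn_banach_open_point hEc hEo hn
  obtain ⟨g, hg⟩ := lin_re (φ.comp (ContinuousLinearMap.inl ℝ ℂ ℝ))
  set c := φ (0, 1) with hcdef
  have hφe : ∀ z r, φ (z, r) = (g * z).re + c * r := by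
    intro z r
    have e : ((z, r) : ℂ × ℝ) = (z, 0) + r • ((0, 1) : ℂ × ℝ) := by
      ext <;> simp
    rw [e, map_add, map_smul, ← hg z]
    simp [hcdef, mul_comm]
  have hcneg : c < 0 := by
    have := hφ (0, f 0 + 1) ⟨h0, by simp⟩
    rw [hφe, hφe] at this
    simp only [mul_zero, Complex.zero_re, zero_add] at this
    linarith
  refine ⟨g / (-c : ℝ), fun z hz => ?_⟩
  have hlim : (g * z).re + c * f z ≤ c * f 0 := by
    have h1 : ∀ δ : ℝ, 0 < δ → (g * z).re + c * (f z + δ) ≤ c * f 0 := by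
      intro δ hδ
      have := hφ (z, f z + δ) ⟨hz, by simp [hδ]⟩
      rw [hφe, hφe] at this
      simp only [mul_zero, Complex.zero_re, zero_add] at this
      exact this.le
    refine le_of_forall_pos_le_add fun ε hε => ?_
    have := h1 (ε / (-c)) (div_pos hε (by linarith))
    have e : c * (f z + ε / (-c)) = c * f z - ε := by
      have hc0 : c ≠ 0 := hcneg.ne
      field_simp
      ring
    rw [e] at this
    linarith
  have e : (g / (-c : ℝ) * z).re = (g * z).re / (-c) := by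
    rw [div_mul_eq_mul_div, Complex.div_ofReal_re]
  rw [e]
  have h2 : (g * z).re / (-c) ≤ f z - f 0 := by
    rw [div_le_iff₀ (by linarith)]
    nlinarith
  linarith

/-- a linear bound for small times -/
theorem small_le {A B C : ℝ} (h : ∃ δ : ℝ, 0 < δ ∧ ∀ t : ℝ, 0 < t → t < δ → A + t * C ≤ B) :
    A ≤ B := by
  obtain ⟨δ, hδ, h⟩ := h
  have h1 : Tendsto (fun t : ℝ => A + t * C) (𝓝[>] 0) (𝓝 A) := by
    have : Continuous (fun t : ℝ => A + t * C) := by fun_prop
    have := (this.tendsto 0).mono_left (nhdsWithin_le_nhds (s := Ioi 0))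
    simpa using this
  refine le_of_tendsto h1 ?_
  filter_upwards [Ioo_mem_nhdsGT hδ] with t ht
  exact h t ht.1 ht.2

/-- a bound along a ray -/
theorem ray_le {s : Set ℂ} (h0 : (0 : ℂ) ∈ s) {f : ℂ → ℝ}
    (hf : ConvexOn ℝ s f) {A : ℝ} {z : ℂ} (hz : z ∈ s) (φ : ℝ → ℝ) (hφ : Tendsto φ (𝓝[>] 0) (𝓝 A))
    (h : ∀ᶠ t : ℝ in 𝓝[>] 0, f 0 + t * φ t ≤ f (t • z)) : f 0 + A ≤ f z := by
  have h1 : ∀ᶠ t : ℝ in 𝓝[>] 0, φ t ≤ f z - f 0 := by
    filter_upwards [h, Ioo_mem_nhdsGT (zero_lt_one (α := ℝ))] with t ht ht1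
    have h2 := hf.2 h0 hz (by linarith [ht1.2] : 0 ≤ 1 - t) ht1.1.le (by ring)
    simp only [smul_zero, zero_add, smul_eq_mul] at h2
    have h3 : t * φ t ≤ t * (f z - f 0) := by linarith
    exact le_of_mul_le_mul_left h3 ht1.1
  have := le_of_tendsto hφ h1
  linarith

end Pool.Agent.W5h27.MO
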